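import Pool.Agent.H71.CR.Stmt

set_option autoImplicit false

open Set Pool.Agent.TK Pool.Agent.H71.VK

namespace Pool.Agent.CR

private lemma h99_sosymm {c : Lf} {A : Set ℕ} {x y : List ℕ} (h : SO c A x y) : SO c A y x :=
  ⟨h.1.symm, fun D hD => (h.2 D hD).zip_symm⟩

theorem pf_NFG : T_NFG := by
  intro n c m hm U hU
  -- one length
  have key : ∀ k : ℕ, k ≤ n.2 → ∃ E : List (List ℕ), ∀ x : List ℕ, x.length = k →
      ∃ e ∈ E, ∃ A ∈ U, SO c A x e := by
    intro k hk
    by_contra hno
    have hall : ∀ j : ℕ, ∃ L : List (List ℕ), L.length = j ∧ (∀ x ∈ L, x.length = k) ∧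
        L.Pairwise fun x y => ¬ ∃ A ∈ U, SO c A x y := by
      intro j
      induction j with
      | zero => exact ⟨[], rfl, by simp, List.Pairwise.nil⟩
      | succ j ih =>
        obtain ⟨L, h1, h2, h3⟩ := ih
        by_cases h4 : ∀ x : List ℕ, x.length = k → ∃ e ∈ L, ∃ A ∈ U, SO c A x e
        · exact absurd ⟨L, h4⟩ hno
        · push Not at h4
          obtain ⟨x, hx, h5⟩ := h4
          refine ⟨x :: L, by simp [h1], ?_, ?_⟩
          · intro y hy
            rcases List.mem_cons.1 hy with rfl | hy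
            · exact hx
            · exact h2 y hy
          · rw [List.pairwise_cons]
            refine ⟨fun y hy => ?_, h3⟩
            rintro ⟨A, hA, hs⟩
            exact h5 y hy A hA hs
    obtain ⟨L, h1, h2, h3⟩ := hall (m + 1)
    have hlt : ∀ i : Fin (m + 1), i.1 < L.length := fun i => by rw [h1]; exact i.2
    obtain ⟨i, j, hij, A, hA, hs⟩ := hm U hU (fun i => L[i.1]'(hlt i))
      (fun i => by rw [h2 _ (List.getElem_mem _)]; exact hk)
      (fun i j => by rw [h2 _ (List.getElem_mem _), h2 _ (List.getElem_mem _)])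
    have hp := List.pairwise_iff_getElem.1 h3
    have hne : i.1 ≠ j.1 := fun h => hij (Fin.ext h)
    rcases lt_or_gt_of_ne hne with h | h
    · exact hp i.1 j.1 (hlt i) (hlt j) h ⟨A, hA, hs⟩
    · exact hp j.1 i.1 (hlt j) (hlt i) h ⟨A, hA, h99_sosymm hs⟩
  have key2 : ∀ N : ℕ, N ≤ n.2 → ∃ E : List (List ℕ), ∀ x : List ℕ, x.length ≤ N →
      ∃ e ∈ E, ∃ A ∈ U, SO c A x e := by
    intro N
    induction N with
    | zero =>
      intro h
      obtain ⟨E, hE⟩ := key 0 h
      exact ⟨E, fun x hx => hE x (by omega)⟩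
    | succ N ih =>
      intro h
      obtain ⟨E, hE⟩ := ih (by omega)
      obtain ⟨E', hE'⟩ := key (N + 1) h
      refine ⟨E ++ E', fun x hx => ?_⟩
      by_cases hx' : x.length ≤ N
      · obtain ⟨e, he, h1⟩ := hE x hx'
        exact ⟨e, List.mem_append_left _ he, h1⟩
      · obtain ⟨e, he, h1⟩ := hE' x (by omega)
        exact ⟨e, List.mem_append_right _ he, h1⟩
  exact key2 n.2 le_rfl

end Pool.Agent.CR
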