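import Pool.Agent.H71.CR.Stmt

set_option autoImplicit false

open Set Pool.Agent.TK Pool.Agent.H71.VK

namespace Pool.Agent.CR

private lemma h99_dgmono {c : Lf} {X Y : List ℕ} (h : X ⊆ Y) {q : List (ℕ × ℕ)}
    (hp : Pl c c (dg Y ++ q)) : Pl c c (dg X ++ q) := by
  refine hp.mono fun z hz => ?_
  rcases List.mem_append.1 hz with h1 | h1
  · have h2 := mem_dg.1 h1
    exact List.mem_append_left _ (mem_dg.2 ⟨h2.1, h h2.2⟩)
  · exact List.mem_append_right _ h1

private lemma h99_subzip (w w' : List ℕ) (hl : w.length = w'.length) (u : List ℕ)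
    (hu : u ⊆ w) : ∃ u' : List ℕ, u.length = u'.length ∧ (∀ z ∈ u.zip u', z ∈ w.zip w') ∧
      u' ⊆ w' := by
  induction u with
  | nil => exact ⟨[], rfl, by simp, by simp⟩
  | cons a u ih =>
    obtain ⟨u', h1, h2, h3⟩ := ih fun x hx => hu (List.mem_cons_of_mem _ hx)
    have ha : a ∈ w := hu List.mem_cons_self
    obtain ⟨i, hi, e⟩ := List.mem_iff_getElem.1 ha
    have hi' : i < w'.length := by omega
    refine ⟨w'[i] :: u', by simp [h1], ?_, ?_⟩
    · intro z hz
      rw [List.zip_cons_cons] at hz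
      rcases List.mem_cons.1 hz with rfl | hz
      · have h4 := get_zip hi hi'
        rw [e] at h4
        exact h4
      · exact h2 z hz
    · intro x hx
      rcases List.mem_cons.1 hx with rfl | hx
      · exact List.getElem_mem hi'
      · exact h3 hx

private lemma h99_zipself {x : List ℕ} {z : ℕ × ℕ} (hz : z ∈ x.zip x) : z.1 = z.2 ∧ z.1 ∈ x := by
  obtain ⟨i, hx, hy, rfl⟩ := zip_get hz
  exact ⟨rfl, List.getElem_mem hx⟩

/-- the left parts agree, the right parts are equal over the left part -/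
private lemma h99_right {c : Lf} {B u v v' : List ℕ} (h : Pl c c (dg (u ++ B) ++ v.zip v')) :
    Pl c c (dg B ++ (u ++ v).zip (u ++ v')) := by
  refine h.mono fun z hz => ?_
  rw [List.zip_append rfl] at hz
  simp only [List.mem_append] at hz ⊢
  rcases hz with h1 | h1 | h1
  · have h2 := mem_dg.1 h1
    exact Or.inl (mem_dg.2 ⟨h2.1, List.mem_append_right _ h2.2⟩)
  · have h2 := h99_zipself h1
    exact Or.inl (mem_dg.2 ⟨h2.1, List.mem_append_left _ h2.2⟩)
  · exact Or.inr h1

private lemma h99_left {c : Lf} {B u u' v : List ℕ} (hl : u.length = u'.length)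
    (h : Pl c c (dg (v ++ B) ++ u.zip u')) :
    Pl c c (dg B ++ (u ++ v).zip (u' ++ v)) := by
  refine h.mono fun z hz => ?_
  rw [List.zip_append hl] at hz
  simp only [List.mem_append] at hz ⊢
  rcases hz with h1 | h1 | h1
  · have h2 := mem_dg.1 h1
    exact Or.inl (mem_dg.2 ⟨h2.1, List.mem_append_right _ h2.2⟩)
  · exact Or.inr h1
  · have h2 := h99_zipself h1
    exact Or.inl (mem_dg.2 ⟨h2.1, List.mem_append_left _ h2.2⟩)

theorem pf_TIB (hMBI : T_MBI) (hFAR : T_FAR) : T_TIB := by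
  intro n c Sm G π B hB
  have inm : ∀ X u u' w w' : List ℕ, u' ⊆ u → w' ⊆ w → G.In X u w → G.In X u' w' := by
    intro X u u' w w' hu hw h j h1 h2
    exact h j (G.mono _ _ (List.append_subset.2 ⟨fun x hx => List.mem_append_left _ (hu hx),
      fun x hx => List.mem_append_right _ hx⟩) h1)
      (G.mono _ _ (List.append_subset.2 ⟨fun x hx => List.mem_append_left _ (hw hx),
      fun x hx => List.mem_append_right _ hx⟩) h2)
  have ins : ∀ X u w : List ℕ, G.In X u w → G.In X w u := fun X u w h j h1 h2 => h j h2 h1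
  refine ⟨?_, ?_, ?_, ?_⟩
  · rintro u v u' v' hu hv ⟨u1, v1, mu1, mv1, in1, lu1, lv1, p1⟩
      ⟨u2, v2, mu2, mv2, in2, lu2, lv2, p2⟩ pu pv
    have s1 : ∀ {a b a' b' : List ℕ}, a.length = a'.length →
        Pl c c (dg B ++ (a ++ b).zip (a' ++ b')) → Pl c c (dg B ++ a.zip a') := by
      intro a b a' b' hl h
      refine h.mono fun z hz => ?_
      rw [List.zip_append hl]
      simp only [List.mem_append] at hz ⊢
      tauto
    have s2 : ∀ {a b a' b' : List ℕ}, a.length = a'.length →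
        Pl c c (dg B ++ (a ++ b).zip (a' ++ b')) → Pl c c (dg B ++ b.zip b') := by
      intro a b a' b' hl h
      refine h.mono fun z hz => ?_
      rw [List.zip_append hl]
      simp only [List.mem_append] at hz ⊢
      tauto
    have eu : Pl c c (dg B ++ u1.zip u2) := by
      have a1 : Pl c c (dg B ++ u1.zip u') := (s1 lu1 p1).zip_symm.zip_trans lu1.symm pu
      exact a1.zip_trans (by omega) (s1 lu2 p2)
    have ev : Pl c c (dg B ++ v1.zip v2) := by
      have a1 : Pl c c (dg B ++ v1.zip v') := (s2 lu1 p1).zip_symm.zip_trans lv1.symm pv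
      exact a1.zip_trans (by omega) (s2 lu2 p2)
    obtain ⟨v3, l3, p3, m3, in3, far3⟩ := hFAR n c Sm G π B hB.dlB v1 mv1 (u1 ++ u2)
    have i1 : G.In B u1 v3 := inm B (u1 ++ u2) u1 v3 v3 (fun x hx => List.mem_append_left _ hx)
      (fun x hx => hx) in3
    have i2 : G.In B u2 v3 := inm B (u1 ++ u2) u2 v3 v3 (fun x hx => List.mem_append_right _ hx)
      (fun x hx => hx) in3
    have M1 : G.Mb π (u1 ++ B) v1 := hMBI n c Sm G π B u1 v1 mv1 in1
    have M2 : G.Mb π (u2 ++ B) v2 := hMBI n c Sm G π B u2 v2 mv2 in2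
    have M3 : G.Mb π (u1 ++ B) v3 := hMBI n c Sm G π B u1 v3 m3 i1
    have M4 : G.Mb π (u2 ++ B) v3 := hMBI n c Sm G π B u2 v3 m3 i2
    have M5 : G.Mb π (v3 ++ B) u1 := hMBI n c Sm G π B v3 u1 mu1 (ins _ _ _ i1)
    have M6 : G.Mb π (v3 ++ B) u2 := hMBI n c Sm G π B v3 u2 mu2 (ins _ _ _ i2)
    have U1 := hB.uq (u1 ++ B) (fun x hx => List.mem_append_right _ hx) v1 v3 l3 M1 M3 p3
    have e23 : Pl c c (dg B ++ v2.zip v3) := ev.zip_symm.zip_trans (by omega) p3
    have U2 := hB.uq (u2 ++ B) (fun x hx => List.mem_append_right _ hx) v2 v3 (by omega) M2 M4 e23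
    have U3 := hB.uq (v3 ++ B) (fun x hx => List.mem_append_right _ hx) u1 u2 (by omega) M5 M6 eu
    have P1 : Pl c c (dg B ++ (u1 ++ v1).zip (u1 ++ v3)) := h99_right U1
    have P2 : Pl c c (dg B ++ (u1 ++ v3).zip (u2 ++ v3)) := h99_left (by omega) U3
    have P3 : Pl c c (dg B ++ (u2 ++ v3).zip (u2 ++ v2)) := h99_right U2.zip_symm
    have Q1 : Pl c c (dg B ++ (u ++ v).zip (u1 ++ v3)) :=
      p1.zip_trans (by simp only [List.length_append]; omega) P1
    have Q2 : Pl c c (dg B ++ (u ++ v).zip (u2 ++ v3)) :=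
      Q1.zip_trans (by simp only [List.length_append]; omega) P2
    have Q3 : Pl c c (dg B ++ (u ++ v).zip (u2 ++ v2)) :=
      Q2.zip_trans (by simp only [List.length_append]; omega) P3
    exact Q3.zip_trans (by simp only [List.length_append]; omega) p2.zip_symm
  · rintro u v ⟨u1, v1, mu1, mv1, in1, lu1, lv1, p1⟩
    refine ⟨v1, u1, mv1, mu1, ins _ _ _ in1, lv1, lu1, p1.mono fun z hz => ?_⟩
    rw [List.zip_append lv1] at hz
    rw [List.zip_append lu1]
    simp only [List.mem_append] at hz ⊢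
    tauto
  · rintro u v u' v' hu hv ⟨u1, v1, mu1, mv1, in1, lu1, lv1, p1⟩
    obtain ⟨u2, l2, z2, t2⟩ := h99_subzip u u1 lu1 u' hu
    obtain ⟨v2, l3, z3, t3⟩ := h99_subzip v v1 lv1 v' hv
    refine ⟨u2, v2, fun a ha => mu1 a (t2 ha), fun a ha => mv1 a (t3 ha),
      inm B u1 u2 v1 v2 t2 t3 in1, l2, l3, p1.mono fun z hz => ?_⟩
    rw [List.zip_append l2] at hz
    rw [List.zip_append lu1]
    simp only [List.mem_append] at hz ⊢
    rcases hz with h | h | h
    · exact Or.inl h
    · exact Or.inr (Or.inl (z2 z h))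
    · exact Or.inr (Or.inr (z3 z h))
  · rintro u v u' v' hu hv ⟨u1, v1, mu1, mv1, in1, lu1, lv1, p1⟩ pp
    exact ⟨u1, v1, mu1, mv1, in1, by omega, by omega,
      pp.zip_symm.zip_trans (by simp only [List.length_append]; omega) p1⟩

end Pool.Agent.CR
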