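import Pool.Agent.H71.CR.Stmt

set_option autoImplicit false

open Set Pool.Agent.TK Pool.Agent.H71.VK

namespace Pool.Agent.CR

private lemma h99_dgmono {c : Lf} {X Y : List ℕ} (h : X ⊆ Y) {q : List (ℕ × ℕ)}
    (hp : Pl c c (dg Y ++ q)) : Pl c c (dg X ++ q) := by
  refine hp.mono fun z hz => ?_
  rcases List.mem_append.1 hz with h1 | h1
  · have h2 := mem_dg.1 h1
    exact List.mem_append_left _ (mem_dg.2 ⟨h2.1, h h2.2⟩)
  · exact List.mem_append_right _ h1

private lemma h99_subzip (w w' : List ℕ) (hl : w.length = w'.length) (u : List ℕ)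
    (hu : u ⊆ w) : ∃ u' : List ℕ, u.length = u'.length ∧ (∀ z ∈ u.zip u', z ∈ w.zip w') ∧
      u' ⊆ w' := by
  induction u with
  | nil => exact ⟨[], rfl, by simp, by simp⟩
  | cons a u ih =>
    obtain ⟨u', h1, h2, h3⟩ := ih fun x hx => hu (List.mem_cons_of_mem _ hx)
    have ha : a ∈ w := hu List.mem_cons_self
    obtain ⟨i, hi, e⟩ := List.mem_iff_getElem.1 ha
    have hi' : i < w'.length := by omega
    refine ⟨w'[i] :: u', by simp [h1], ?_, ?_⟩
    · intro z hz
      rw [List.zip_cons_cons] at hz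
      rcases List.mem_cons.1 hz with rfl | hz
      · have h4 := get_zip hi hi'
        rw [e] at h4
        exact h4
      · exact h2 z hz
    · intro x hx
      rcases List.mem_cons.1 hx with rfl | hx
      · exact List.getElem_mem hi'
      · exact h3 hx

theorem pf_FRM (hFAR : T_FAR) : T_FRM := by
  intro n c Sm G π B hB
  have h1 : ∀ Y : List ℕ, B ⊆ Y → ∀ w w' : List ℕ, w.length = w'.length → G.Fr π Y w →
      G.Fr π Y w' → Pl c c (dg B ++ w.zip w') → Pl c c (dg Y ++ w.zip w') := by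
    rintro Y hY w w' hl ⟨w1, m1, l1, p1⟩ ⟨w2, m2, l2, p2⟩ hp
    have e1 : Pl c c (dg B ++ w1.zip w) := (h99_dgmono hY p1).zip_symm
    have e2 : Pl c c (dg B ++ w1.zip w') := e1.zip_trans l1.symm hp
    have e3 : Pl c c (dg B ++ w1.zip w2) := e2.zip_trans (by omega) (h99_dgmono hY p2)
    have e4 := hB.uq Y hY w1 w2 (by omega) m1 m2 e3
    have e5 : Pl c c (dg Y ++ w.zip w2) := p1.zip_trans l1 e4
    exact e5.zip_trans (by omega) p2.zip_symm
  have h2 : ∀ X Y : List ℕ, B ⊆ Y → Y ⊆ X → ∀ w : List ℕ, w.length ≤ n.2 → G.Mb π X w →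
      G.Fr π Y w := by
    intro X Y hY hX w hw m
    have hBX : B ⊆ X := fun x hx => hX (hY hx)
    obtain ⟨w', m', l', p'⟩ := hB.sat X hBX w hw m
    obtain ⟨w1, l1, p1, m1, _, m2⟩ := hFAR n c Sm G π B hB.dlB w' m' X
    have e1 : Pl c c (dg B ++ w.zip w1) := p'.zip_trans l' p1
    have e2 := hB.uq X hBX w w1 (by omega) m
      (m2 X hBX fun x hx => List.mem_append_left _ hx) e1
    exact ⟨w1, m2 Y hY fun x hx => List.mem_append_left _ (hX hx), by omega,
      h99_dgmono hX e2⟩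
  refine ⟨h1, h2, ?_, ?_⟩
  · rintro X Y hY hX w hw ⟨w', m', l', p'⟩
    obtain ⟨w'', m'', l'', p''⟩ := h2 X Y hY hX w' (by omega) m'
    exact ⟨w'', m'', by omega, (h99_dgmono hX p').zip_trans l' p''⟩
  · rintro Y w u hu ⟨w', m', l', p'⟩
    obtain ⟨u', l1, z1, s1⟩ := h99_subzip w w' l' u hu
    refine ⟨u', fun a ha => m' a (s1 ha), l1, p'.mono fun z hz => ?_⟩
    rcases List.mem_append.1 hz with h | h
    · exact List.mem_append_left _ h
    · exact List.mem_append_right _ (z1 z h)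

end Pool.Agent.CR
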